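import Pool.Agent.Lib.MP_c11b14_lc.LM.J1
import Pool.Agent.Lib.MP_c11b14_lc.LM.K1
import Pool.Agent.Lib.MP_c11b14_lc.LM.K2

/-!
Real roots of `∏ f + c`, on average over the one parameter `c`: the linear bound.

Let `p` have its monomials in a set `s` of `t` exponents and let `X` be a finite set of positive
points off its roots. Among the `v` with monomials in `s` and `0 ≤ v / p ≤ 1` on `X` take one with
the largest value at a point to the right of `X`. If its contacts with `0` and with `p` did not
alternate `t` times, it could be increased by a `w` with prescribed sign changes (Descartes' rule).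
So `v` and `u = p - v` have `t - 1` roots each, and both are logarithmically concave in `log x`
between their roots (otherwise `x v' - β v` would have `t` roots for some real `β`). With
`r = v / p`, which takes each value at most `t - 1` times, and `c = √(a b)`:
`|p c| ≥ √(|v a| |v b|) + √(|u a| |u b|) = √(|p a| |p b|) (√(r a r b) + √((1 - r a) (1 - r b)))`,
so the square root of the depth `1 - |p c| / √(|p a| |p b|)` is at most
`|√(r a) - √(r b)| + |√(1 - r a) - √(1 - r b)|`, with sum `≤ 2 (t - 1)` over disjoint windows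
`[a, b]`; at most `2 (t - 1)` windows contain a root of `v` or `u`. For a product the depths add up,
a comparison polynomial with nonnegative coefficients is logarithmically convex, and a sequence
with values in `[1, 2]` which has at most `A / √η` disjoint dips of depth `η`, for every `η`, has
total variation at most `10 A`; for the sets `B` this is applied to `1 + |B ∩ [1, y]| / |B|` in
place of `y`.
-/

set_option autoImplicit false

namespace Pool.Agent.Results.MP_c11b14_lc.LinearMean

open MeasureTheory Polynomial Pool.Agent.MP_c11b14_lc.LM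
open scoped ENNReal

/-- Let `f₁, ..., f_m` be nonzero real polynomials, `m ≥ 1`, with `T` monomials together, and
`F = ∏ f` (the case `f₁ f₂ + c` is `m = 2`, `k = 0`).

A. For all real `a`, natural `k` and measurable `B ⊆ [1, 2]` the integral over `c ∈ B` of the number
`Z` of different real roots of `F + a c X^k` is at most `205 T √|B|` (`Z ≤ H c` with a measurable
function `H`, the same for all `B`, whose integral over `B` is at most `205 T √|B|`); so the mean
over `[1, 2]` is at most `205 T`, and `Z ≥ n` only in a set of (outer) measure at most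
`(205 T / n)²`. If `G ≠ 0` has nonnegative coefficients, the same holds for the number of different
positive roots of `F + a c G`, with `102` for `205`.

B. If `(-1)^i (F + 1) ≥ ε` at `x_i`, `x₀ < ... < x_N`, `0 < ε ≤ 1`, then `√ε N ≤ 36 T`. And
`√ε Z(F + 1) ≤ 40 T + 2 √ε I`, where `Z(F + 1)` is the number of different real roots of `F + 1` and
`I` the number of different real roots `x` of `F'` with `|F(x) + 1| < ε`.

C. `∫ |F' x^k - F (x^k)'| / (F² + x^(2k)) ≤ 1640 T`: the length of the curve `[F : X^k]` in the real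
projective line.

D. For intervals `[a_i, b_i] ⊆ (0, ∞)` without roots of `F` which do not overlap:
`∑ √(1 - |F(√(a_i b_i))| / √(|F(a_i) F(b_i)|))⁺ ≤ 4 (T - m)`. All the rest follows from this. -/
theorem result (m : ℕ) (f : Fin m → ℝ[X]) (T : ℕ) (hm : 0 < m) (hf : ∀ i, f i ≠ 0)
    (hT : ∑ i, (f i).support.card = T) :
    (∀ (a : ℝ) (k : ℕ), (∃ H : ℝ → ℝ≥0∞, Measurable H ∧
        (∀ c : ℝ, ((((∏ i, f i) + C (a * c) * X ^ k).roots.toFinset.card : ℕ) : ℝ≥0∞) ≤ H c) ∧
        ∀ B ⊆ Set.Icc (1 : ℝ) 2, MeasurableSet B →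
          ∫⁻ c in B, H c ≤ ENNReal.ofReal (205 * T * √(volume B).toReal)) ∧
      ∀ n : ℕ, 1 ≤ n → volume {c | c ∈ Set.Icc (1 : ℝ) 2 ∧
          n ≤ ((∏ i, f i) + C (a * c) * X ^ k).roots.toFinset.card} ≤
        ENNReal.ofReal ((205 * T / n) ^ 2)) ∧
    (∀ (a : ℝ) (G : ℝ[X]), G ≠ 0 → (∀ n, 0 ≤ G.coeff n) → (∃ H : ℝ → ℝ≥0∞, Measurable H ∧
        (∀ c : ℝ, (((((∏ i, f i) + C (a * c) * G).roots.toFinset.filter fun x => 0 < x).card : ℕ) :
          ℝ≥0∞) ≤ H c) ∧
        ∀ B ⊆ Set.Icc (1 : ℝ) 2, MeasurableSet B →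
          ∫⁻ c in B, H c ≤ ENNReal.ofReal (102 * T * √(volume B).toReal)) ∧
      ∀ n : ℕ, 1 ≤ n → volume {c | c ∈ Set.Icc (1 : ℝ) 2 ∧
          n ≤ (((∏ i, f i) + C (a * c) * G).roots.toFinset.filter fun x => 0 < x).card} ≤
        ENNReal.ofReal ((102 * T / n) ^ 2)) ∧
    (∀ ε : ℝ, 0 < ε → ε ≤ 1 →
      (∀ (N : ℕ) (x : ℕ → ℝ), (∀ i < N, x i < x (i + 1)) →
        (∀ i ≤ N, ε ≤ (-1) ^ i * ((∏ i, f i).eval (x i) + 1)) → √ε * N ≤ 36 * T) ∧
      √ε * (((∏ i, f i) + 1).roots.toFinset.card : ℕ) ≤ 40 * T + 2 * √ε *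
        (((derivative (∏ i, f i)).roots.toFinset.filter
          fun x => |(∏ i, f i).eval x + 1| < ε).card : ℕ)) ∧
    (∀ k : ℕ, ∫⁻ x : ℝ, ENNReal.ofReal
        (|(derivative (∏ i, f i) * X ^ k - (∏ i, f i) * derivative (X ^ k)).eval x| /
          ((∏ i, f i).eval x ^ 2 + (x ^ k) ^ 2)) ≤ ENNReal.ofReal (1640 * T)) ∧
    (∀ (n : ℕ) (a b : Fin n → ℝ), (∀ i, 0 < a i ∧ a i < b i ∧
        ∀ x ∈ Set.Icc (a i) (b i), (∏ i, f i).eval x ≠ 0) →
      (∀ i j, i ≠ j → b i ≤ a j ∨ b j ≤ a i) →
      ∑ i, √(max 0 (1 - |(∏ i, f i).eval √(a i * b i)| /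
        √(|(∏ i, f i).eval (a i)| * |(∏ i, f i).eval (b i)|))) ≤ 4 * (T - m)) := by
  have hT' : ∑ i, ((f i).support.card : ℝ) = T := by exact_mod_cast hT
  have hT1 : (1 : ℝ) ≤ T := by
    have h1 : 1 ≤ (f ⟨0, hm⟩).support.card :=
      Finset.card_pos.2 (Polynomial.nonempty_support_iff.2 (hf _))
    have h2 : (f ⟨0, hm⟩).support.card ≤ ∑ i, (f i).support.card :=
      Finset.single_le_sum (f := fun i => (f i).support.card) (fun _ _ => Nat.zero_le _)
        (Finset.mem_univ _)
    exact_mod_cast h1.trans (h2.trans hT.le)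
  refine ⟨?_, ?_, ?_, ?_, ?_⟩
  · intro a k
    exact line_set hm hf hT' hT1 a k
  · intro a G hG0 hG
    have h1 := good_prod hf
    rw [hT'] at h1
    exact pos_set h1 ⟨hG0, hG⟩ hT1 a
  · intro ε h0 h1
    refine ⟨fun N x hx h => ?_, ?_⟩
    · have := alternations_line hm hf h0 h1 N x hx h
      rwa [hT'] at this
    · have := roots_le hf h0 h1
      rwa [hT'] at this
  · intro k
    have := length hm hf k
    rw [hT'] at this
    simpa only [jac, eval_pow, eval_X] using this
  · intro n a b hw hd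
    have h1 := (good_prod' hf).2.2 (Fin n) Finset.univ a b
      (fun i _ => hw i) (fun i _ j _ hij => hd i j hij)
    rw [Finset.sum_sub_distrib, hT'] at h1
    simpa [dep] using h1

end Pool.Agent.Results.MP_c11b14_lc.LinearMean
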