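import Pool.Agent.Lib.MP_c11b14_lc.OP.P1
import Pool.Agent.Lib.MP_c11b14_lc.OP.R1
import Pool.Agent.Lib.MP_c11b14_lc.TB.T9

/-!
Real roots of `∏ f + c ∏ g`, for almost all values of the one parameter `c`; alternations; lengths
of curves of sparse products.

Let `G₁ = ∏ f`, `G₂ = ∏ g` and `x = e^u`. For one factor `p` and a scale `ℓ` the vector
`φ(u) = (ω ↦ p(e^(u + i ω)))` of the Hilbert space `L²(e^(-ω/ℓ) dω / ℓ)` is a sum of
`t = p.support.card` exponentials `e^(n u) E_n`. A Gaussian vector and Descartes' rule give that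
the direction of `φ` turns by at most `O(t)` in total. Where it turns little on an interval of
length `10 ℓ`, `p(e^z)` is close to `b e^(a z)` on a complex disc of radius `4 ℓ` (a commutator
identity, Hardy's inequality and the mean value property). Hence, if `ℓ` runs through the dyadic
scales between `1` and `T/d`, the line is covered by `O(T)` intervals of length `ℓ` for each scale
`ℓ < 1` and by intervals of length `1` on which `log |G₁/G₂|` is monotone or has total variation
`O(1)` (at the scale `1` the exponents `a` are almost integers, which bounds the number of monotone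
pieces), and by `O(T)` intervals of length about `T/d`.

Let `S` be a set of parameters of measure `β`. The mean over `c ∈ S` of `log |A + c B|` is at least
`log max (|A|, |B|) - 4 - log (1/β)`. So Jensen's formula on two circles bounds the number of zeros
of `G₁ + c G₂` in an interval of the last kind, in the mean over `c ∈ S`, by `O(1 + log (1/β))` plus
the mean over `θ` of the number of zeros of `G₁ + e^(i θ) G₂` in a part of the sector
`|arg x| < 2 T/d`; the sum of these means is `O(T)` by the argument principle on the sector and the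
Descartes bound for the changes of the argument on its two rays. The same formula gives
`O(1 + log (1/β))` for each interval where `log |G₁/G₂|` has variation `O(1)` on the disc. At the
scale `1`, at distance `s` from the corners of the Newton polygons of the factors, one monomial of
each factor dominates and the direction turns at the speed `O(e^(-s))`; so only
`O(T (1 + log (1/β)))` intervals are of interest.

The length is the mean number of zeros over all `c ∈ ℝ`, with the weight `1 / (1 + c²)` (area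
formula). The result for `k` products follows from the area formula in one of the coefficients,
the one of the largest product. For powers the log factor is not needed: the roots of
`f ^ α + y g ^ α` are roots of `f ± |y| ^ (1 / α) g`, so the curve `[f ^ α : g ^ α]` has length
`O(T)` by Descartes' rule.
-/

set_option autoImplicit false

namespace Pool.Agent.Results.MP_c11b14_lc.OneParameter

open MeasureTheory Polynomial Pool.Agent.MP_c11b14_lc.OP
open scoped ENNReal

/-- There is a constant `c₀ > 0` with the following properties. Let `f₁, ..., f_m, g₁, ..., g_n`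
be nonzero real polynomials with `T` monomials together, `∏ f` and `∏ g` of degree at most `d`
(the case `f₁ f₂ + c` is `m = 2`, `n = 0`), `K(δ) = c₀ T log (2 / δ) log ((2 + d / T) / δ)`.

A. For every real `a` and `0 < δ ≤ 1`, for all `c ∈ [1, 2]` outside of a set of measure at most `δ`
the number of different real roots of `∏ f + a c ∏ g` is at most `K(δ)`. The mean of this number
over every measurable subset of `[1, 2]` of measure `β > 0` is at most `K(β)` (it is at most `H c`
with a measurable function `H`, the same for all subsets, whose mean is at most `K(β)`).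

B. If `∏ f + ∏ g` has alternating signs at `x₀ < ... < x_N`, `∏ g > 0` and
`|∏ f + ∏ g| ≥ ε ∏ g` there, `0 < ε ≤ 1`, then `N ≤ K(ε)`.

C. The curve `[F : G]` in the real projective line, `F = ∏ f`, `G = ∏ g`, has length
`∫ |F' G - F G'| / (F² + G²) ≤ c₀ T log (2 + d / T)`.

D. Let `f_ij` be nonzero real polynomials, `i < k`, `j < m_i`, with `T` monomials together, all
products `∏_j f_ij` of degree at most `d`, and let `c_i` be independent random variables with
densities at most `K` and `E |c_i| ≤ 1`. Then the expected number of different real roots of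
`∑_i c_i ∏_j f_ij` is at most `c₀ K k T log (2 + d)`. For powers no log factor is needed: for
nonzero `f_i`, `i < k`, with `T` monomials together and every exponent `α` the expected number of
different real roots of `∑_i c_i f_i ^ α` is at most `80 K k T`. -/
theorem result : ∃ c₀ : ℝ, 0 < c₀ ∧
    (∀ (m n : ℕ) (f : Fin m → ℝ[X]) (g : Fin n → ℝ[X]) (T d : ℕ), (∀ i, f i ≠ 0) →
      (∀ j, g j ≠ 0) → ∑ i, (f i).support.card + ∑ j, (g j).support.card = T →
      (∏ i, f i).natDegree ≤ d → (∏ j, g j).natDegree ≤ d →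
      (∀ a : ℝ, (∀ δ : ℝ, 0 < δ → δ ≤ 1 → volume {c | c ∈ Set.Icc (1 : ℝ) 2 ∧
            c₀ * T * Real.log (2 / δ) * Real.log ((2 + (d : ℝ) / T) / δ) <
              ((∏ i, f i) + C (a * c) * ∏ j, g j).roots.toFinset.card} ≤ ENNReal.ofReal δ) ∧
        ∃ H : ℝ → ℝ≥0∞, Measurable H ∧
          (∀ c : ℝ, ((((∏ i, f i) + C (a * c) * ∏ j, g j).roots.toFinset.card : ℕ) : ℝ≥0∞) ≤
            H c) ∧
          ∀ (S : Set ℝ) (β : ℝ), S ⊆ Set.Icc 1 2 → MeasurableSet S → 0 < β →
            volume S = ENNReal.ofReal β → ∫⁻ c in S, H c ≤ ENNReal.ofReal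
              (β * (c₀ * T * Real.log (2 / β) * Real.log ((2 + (d : ℝ) / T) / β)))) ∧
      (∀ (ε : ℝ) (N : ℕ) (x : ℕ → ℝ), 0 < ε → ε ≤ 1 → (∀ i < N, x i < x (i + 1)) →
        (∀ i ≤ N, 0 < (∏ j, g j).eval (x i) ∧ ε * (∏ j, g j).eval (x i) ≤
          (-1) ^ i * ((∏ i, f i).eval (x i) + (∏ j, g j).eval (x i))) →
        N ≤ c₀ * T * Real.log (2 / ε) * Real.log ((2 + (d : ℝ) / T) / ε)) ∧
      ∫⁻ x : ℝ, ENNReal.ofReal
          (|(derivative (∏ i, f i) * ∏ j, g j - (∏ i, f i) * derivative (∏ j, g j)).eval x| /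
            ((∏ i, f i).eval x ^ 2 + (∏ j, g j).eval x ^ 2)) ≤
        ENNReal.ofReal (c₀ * T * Real.log (2 + (d : ℝ) / T))) ∧
    (∀ (k : ℕ) (μ : Fin k → Measure ℝ) (K : ℝ), (∀ i, IsProbabilityMeasure (μ i)) →
      (∀ i, μ i ≤ ENNReal.ofReal K • (volume : Measure ℝ)) →
      (∀ i, ∫⁻ x, ENNReal.ofReal |x| ∂(μ i) ≤ 1) →
      (∀ (m : Fin k → ℕ) (f : (i : Fin k) → Fin (m i) → ℝ[X]) (T d : ℕ),
        (∀ i j, f i j ≠ 0) → ∑ i, ∑ j, (f i j).support.card = T →
        (∀ i, (∏ j, f i j).natDegree ≤ d) →
        ∃ H : (Fin k → ℝ) → ℝ≥0∞, Measurable H ∧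
          (∀ c, (((∑ i, C (c i) * ∏ j, f i j).roots.toFinset.card : ℕ) : ℝ≥0∞) ≤ H c) ∧
          ∫⁻ c, H c ∂(Measure.pi μ) ≤ ENNReal.ofReal (c₀ * K * k * T * Real.log (2 + d))) ∧
      ∀ (α : ℕ) (f : Fin k → ℝ[X]) (T : ℕ), (∀ i, f i ≠ 0) → ∑ i, (f i).support.card = T →
        ∃ H : (Fin k → ℝ) → ℝ≥0∞, Measurable H ∧
          (∀ c, (((∑ i, C (c i) * f i ^ α).roots.toFinset.card : ℕ) : ℝ≥0∞) ≤ H c) ∧
          ∫⁻ c, H c ∂(Measure.pi μ) ≤ ENNReal.ofReal (80 * K * k * T)) := by
  obtain ⟨a₁, h₁, hA⟩ := part_AS'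
  obtain ⟨a₂, h₂, hC⟩ := length_le
  obtain ⟨a₃, h₃, hD⟩ := average_tau
  have hlog : ∀ d T : ℕ, 0 ≤ Real.log (2 + (d : ℝ) / T) := fun d T =>
    (Real.log_nonneg one_le_two).trans log_ge
  have hlog' : ∀ d : ℕ, 0 ≤ Real.log (2 + (d : ℝ)) := fun d => Real.log_nonneg (by
    have : (0 : ℝ) ≤ d := Nat.cast_nonneg d
    linarith)
  refine ⟨a₁ + a₂ + a₃, by positivity, ?_, ?_⟩
  · intro m n f g T d hf hg hT hdf hdg
    have hle : ∀ b : ℝ, b ≤ a₁ + a₂ + a₃ → b * T * Real.log (2 + (d : ℝ) / T) ≤
        (a₁ + a₂ + a₃) * T * Real.log (2 + (d : ℝ) / T) := fun b hb =>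
      mul_le_mul_of_nonneg_right (mul_le_mul_of_nonneg_right hb (Nat.cast_nonneg T)) (hlog d T)
    have h0 : 0 ≤ (a₁ + a₂ + a₃) * T * Real.log (2 + (d : ℝ) / T) :=
      mul_nonneg (mul_nonneg (by linarith) (Nat.cast_nonneg T)) (hlog d T)
    have hA' := fun a => (hA m n f g T d hf hg hT hdf hdg a).mono' (fun _ _ _ => le_rfl)
      (d := fun β => ENNReal.ofReal (β * wB (a₁ + a₂ + a₃) T d β)) (fun β h3 h4 =>
        ENNReal.ofReal_le_ofReal (mul_le_mul_of_nonneg_left (wB_mono (by linarith) h3 h4) h3.le))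
    have hc : 0 ≤ a₁ + a₂ + a₃ := by positivity
    refine ⟨?_, ?_, ?_⟩
    · intro a
      refine ⟨fun δ h3 h4 => tail (fun x y h5 h6 h7 => wB_anti hc h5 h6 h7)
        (fun x h5 h6 => wB_nonneg hc h5 h6) (hA' a) h3 h4, ?_⟩
      obtain ⟨H, h4, h5, h6⟩ := (hA' a).everywhere
      refine ⟨H, h4, h5, fun S β hS hSm hβ hv => h6 β hβ ?_ S hS hSm hv⟩
      have h7 : volume S ≤ ENNReal.ofReal 1 := by
        refine (measure_mono hS).trans ?_
        rw [Real.volume_Icc]
        norm_num
      rw [hv] at h7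
      exact (ENNReal.ofReal_le_ofReal_iff zero_le_one).1 h7
    · intro ε N x hε hε1 hx hs
      refine part_DS (w := wB (a₁ + a₂ + a₃) T d) (fun x h5 h6 => wB_nonneg hc h5 h6)
        ((hA' 1).mono' ?_ (fun _ _ _ => le_rfl)) hε hε1 hx hs
      intro c _ _
      rw [one_mul]
    · exact (hC m n f g T d hf hg hT hdf hdg).trans
        (ENNReal.ofReal_le_ofReal (hle _ (by linarith)))
  · intro k μ K hp hμ h1
    refine ⟨?_, ?_⟩
    · intro m f T d hf hT hd
      obtain ⟨H, h4, h5, h6⟩ := hD k m f T d hf hT hd μ K hp hμ h1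
      refine ⟨H, h4, h5, h6.trans ?_⟩
      rcases Nat.eq_zero_or_pos k with rfl | hk
      · simp
      have hK : 0 ≤ K := by
        have := hp ⟨0, hk⟩
        have := k2_lower (hμ ⟨0, hk⟩) (h1 ⟨0, hk⟩)
        linarith
      refine ENNReal.ofReal_le_ofReal ?_
      have h7 : 0 ≤ K * k * T * Real.log (2 + (d : ℝ)) :=
        mul_nonneg (by positivity) (hlog' d)
      nlinarith
    · intro α f T hf hT
      obtain ⟨H, h4, h5, h6⟩ := average_pow k α f hf μ K hp hμ h1
      exact ⟨H, h4, h5, by rwa [hT] at h6⟩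

end Pool.Agent.Results.MP_c11b14_lc.OneParameter
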