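import Pool.Agent.Lib.MP_c11b14_lc.SCFinal

/-!
Real roots of `f g + 1` when all exponents of `f` are congruent modulo `m`.

Let `f = x^ρ F(x^m)` and `h = f g^k + U(x^m)` with real polynomials `F`, `g`, `U`. The roots of `h`
in the sector `|arg x| < π/m` are counted by the change of the argument of `h` along the ray
`arg x = π/m`: as the roots of `h` come in conjugate pairs, their number is `deg h / m` minus the
change divided by `π`. On the ray `f` is real up to a constant factor and `U(x^m)` is real. So the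
imaginary part of `h` on the ray is the product of a real polynomial with the positive roots given
by the negative roots of `F` and of `k` real polynomials whose exponents are exponents of `g`. It
vanishes each time the argument passes a multiple of `π`, and Descartes' rule of signs bounds the
number of its roots.
-/

set_option autoImplicit false

namespace Pool.Agent.Results.MP_c11b14_lc.ProgressionFactor

open Polynomial Pool.Agent.MP_c11b14_lc.SC

/-- Let `1 ≤ m`.

1. Let `F`, `g`, `U` be real polynomials, `F ≠ 0`, `1 ≤ k` and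
`h = x^ρ F(x^m) g^k + x^e U(x^m) ≠ 0`. The number of positive roots of `h`, counted with
multiplicity, is at most `⌊deg h / m⌋ + ν + k (|g|₀ - 1) + 1 + δ`, where `ν` is the number of
different negative roots of `F` and `δ` is `0` if `m` divides `e` and `1` if not.

2. For `f = x^ρ F(x^m)` and every `g`, the number of different real roots of `f g + 1` is at most
`2 ⌊(deg f + deg g) / m⌋ + 2 (|F|₀ + |g|₀) - 1`.

3. If `|F|₀ ≤ s`, `|g|₀ ≤ s` and `deg f + deg g ≤ κ s m`, it is at most `(2 κ + 4) s`.

4. If `F` and `G` have degree less than `s`, then `F(x^a) G(x^b) + 1` has at most `8 s` real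
roots for all `a, b ≥ 1`.

5. For `g ≠ 0` the number of different real roots of `h = c g^2 + x^e U(x^m) ≠ 0` is at most
`2 ⌊deg h / m⌋ + 4 |g|₀ + 1`. -/
theorem result :
    (∀ (m ρ e k : ℕ) (F g U : ℝ[X]), 1 ≤ m → 1 ≤ k → F ≠ 0 →
      X ^ ρ * F.comp (X ^ m) * g ^ k + X ^ e * U.comp (X ^ m) ≠ 0 →
      (X ^ ρ * F.comp (X ^ m) * g ^ k + X ^ e * U.comp (X ^ m)).roots.countP (0 < ·) ≤
        (X ^ ρ * F.comp (X ^ m) * g ^ k + X ^ e * U.comp (X ^ m)).natDegree / m +
          (F.roots.toFinset.filter (· < 0)).card + k * (g.support.card - 1) + 1 +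
            (if m ∣ e then 0 else 1)) ∧
    (∀ (m ρ : ℕ) (F g : ℝ[X]), 1 ≤ m →
      (X ^ ρ * F.comp (X ^ m) * g + 1).roots.toFinset.card ≤
        2 * (((X ^ ρ * F.comp (X ^ m)).natDegree + g.natDegree) / m) +
          2 * (F.support.card + g.support.card) - 1) ∧
    (∀ (κ : ℝ) (m ρ s : ℕ) (F g : ℝ[X]), 1 ≤ m → F.support.card ≤ s → g.support.card ≤ s →
      (((X ^ ρ * F.comp (X ^ m)).natDegree + g.natDegree : ℕ) : ℝ) ≤ κ * s * m →
      ((X ^ ρ * F.comp (X ^ m) * g + 1).roots.toFinset.card : ℝ) ≤ (2 * κ + 4) * s) ∧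
    (∀ (a b s : ℕ) (F G : ℝ[X]), 1 ≤ a → 1 ≤ b → F.natDegree < s → G.natDegree < s →
      (F.comp (X ^ a) * G.comp (X ^ b) + 1).roots.toFinset.card ≤ 8 * s) ∧
    (∀ (m e : ℕ) (c : ℝ) (g U : ℝ[X]), 1 ≤ m → g ≠ 0 →
      C c * g ^ 2 + X ^ e * U.comp (X ^ m) ≠ 0 →
      (C c * g ^ 2 + X ^ e * U.comp (X ^ m)).roots.toFinset.card ≤
        2 * ((C c * g ^ 2 + X ^ e * U.comp (X ^ m)).natDegree / m) + 4 * g.support.card + 1) :=
  ⟨fun _ _ _ _ _ _ _ hm hk hF h0 => pos_count_shift hm hk hF h0,
    fun _ _ F g hm => real_count hm F g,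
    fun _ _ _ _ F g hm hF hg hd => linear_count hm F g hF hg hd,
    fun _ _ _ F G ha hb hF hG => two_powers ha hb F G hF hG,
    fun _ _ c _ _ hm hg h0 => square_count hm c hg h0⟩

end Pool.Agent.Results.MP_c11b14_lc.ProgressionFactor
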