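import Pool.Agent.Lib.MP_c11b14_lc.Sm.Cond

/-!
Smoothed analysis of the number of real roots of `f g + 1`.

The coefficients of `f` (`s` terms) and `g` (`t` terms) are independent, each with a law in an
interval `[A - r, A + r]` of radius `r ≥ ρ |A|` with a density at most `c / (2 r)`; for `c = 1`
this is the uniform law. Put `x = ± e^u`. The number of zeros is bounded by the limit of the Kac
integral `(1 / 2ε) ∫ |F'(u)| 1[|F(u)| < ε] du`.

Linear bound: at each `u` condition on all coefficients but the one of the dominating monomial of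
`f` (or of `g`). The density of this coefficient bounds the conditional expectation, and the
integral over `u` is summed along the two Newton polygons.

Logarithmic bound: the line is cut into `O(s + t)` cells and windows of the two Newton polygons. In
each of them the monomials which are smaller than the dominating one by the factor
`exp(-O(log((s+t)/ρ)))` are dropped, and both factors are replaced by Taylor polynomials of degree
`O(log((s+t)/ρ))` on unit pieces, so that the function has `O(log((s+t)/ρ))` strips of monotony; the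
Kac integral over a strip is bounded by the probability that a coefficient lies in an interval. A
small event, where the dropped terms matter, is treated as in the linear bound.

Part 3: at the zeros of `(f g)'` which are not counted by `I` the polynomial `F G + 1` of part 2 has
the sign of `f g + 1`, and there is such a zero between two neighbouring roots of `f g + 1`, up to
`I` exceptions.
-/

set_option autoImplicit false

namespace Pool.Agent.Results.MP_c11b14_lc.SmoothedCount

open MeasureTheory Set Polynomial Pool.Agent.Lib.MP_c11b14_lc.Sm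
open scoped ENNReal

/-- 1. Let `f = ∑ i, ω.1 i x^(a i)` have `s` terms and `g = ∑ j, ω.2 j x^(b j)` have `t` terms,
with independent random coefficients. The law of the coefficient `i` of `f` lies in
`[A i - r i, A i + r i]`, where `A i` is any real number and `r i ≥ ρ |A i|`, `r i > 0`,
`0 < ρ ≤ 1`, and has a density at most `c / (2 r i)`, `c ≥ 1`; and likewise for `g`. Then the
expected number of different real roots of `f g + 1` is at most
`min (11 c (s + t) / ρ) (3000 c² (s + t) log (4 (s + t) / ρ))` (it is bounded everywhere by a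
measurable function `H` whose expectation satisfies this bound; the zero polynomial has an empty
set of roots here).

2. For all `f` and `g` with `s` and `t` terms and all `0 < ρ ≤ 1` one can change each
coefficient by a relative error at most `ρ` such that `F G + 1` has at most
`min (11 (s + t) / ρ) (3000 (s + t) log (4 (s + t) / ρ))` different real roots.

3. For all `f` and `g` and all `0 < ρ ≤ 1` the number of different real roots of `f g + 1` is at
most this number plus `2 + 2 I`, where `I` is the number of real zeros of `(f g)'` with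
`|f(x) g(x) + 1| ≤ 3 ρ |f|(x) |g|(x)`. Here `|f|(x) = ∑ n, |f_n| |x|^n`. In particular, if
`|f|(x) |g|(x) ≤ κ |f(x) g(x) + 1|` at all real zeros of `(f g)'`, then (`ρ = 1 / (4 κ)`) there are
at most `2 + min (44 (s + t) κ) (3000 (s + t) log (16 (s + t) κ))` different real roots. -/
theorem result :
    (∀ (ι κ : Type) [Fintype ι] [Fintype κ] (a : ι → ℕ) (b : κ → ℕ) (A r : ι → ℝ)
      (B q : κ → ℝ) (μ : ι → Measure ℝ) (ν : κ → Measure ℝ) [∀ i, IsProbabilityMeasure (μ i)]
      [∀ j, IsProbabilityMeasure (ν j)] (ρ c : ℝ), 0 < ρ → ρ ≤ 1 → 1 ≤ c →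
      (∀ i, 0 < r i ∧ ρ * |A i| ≤ r i) → (∀ j, 0 < q j ∧ ρ * |B j| ≤ q j) →
      (∀ i, μ i ≤ ENNReal.ofReal (c / (2 * r i)) •
        (volume : Measure ℝ).restrict (Icc (A i - r i) (A i + r i))) →
      (∀ j, ν j ≤ ENNReal.ofReal (c / (2 * q j)) •
        (volume : Measure ℝ).restrict (Icc (B j - q j) (B j + q j))) →
      ∃ H : (ι → ℝ) × (κ → ℝ) → ℝ≥0∞, Measurable H ∧
        (∀ ω : (ι → ℝ) × (κ → ℝ), ((((∑ i, C (ω.1 i) * X ^ a i) * (∑ j, C (ω.2 j) * X ^ b j) +
          1 : ℝ[X]).roots.toFinset.card : ℕ) : ℝ≥0∞) ≤ H ω) ∧
        ∫⁻ ω, H ω ∂((Measure.pi μ).prod (Measure.pi ν)) ≤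
          ENNReal.ofReal (min (11 * c * (Fintype.card ι + Fintype.card κ) / ρ)
            (3000 * c ^ 2 * (Fintype.card ι + Fintype.card κ) *
              Real.log (4 * (Fintype.card ι + Fintype.card κ) / ρ)))) ∧
    (∀ (f g : ℝ[X]) (ρ : ℝ), 0 < ρ → ρ ≤ 1 →
      ∃ F G : ℝ[X], (∀ n, |F.coeff n - f.coeff n| ≤ ρ * |f.coeff n|) ∧
        (∀ n, |G.coeff n - g.coeff n| ≤ ρ * |g.coeff n|) ∧
        ((F * G + 1).roots.toFinset.card : ℝ) ≤
          min (11 * (f.support.card + g.support.card : ℕ) / ρ)
            (3000 * (f.support.card + g.support.card : ℕ) *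
              Real.log (4 * (f.support.card + g.support.card : ℕ) / ρ))) ∧
    (∀ (f g : ℝ[X]) (ρ : ℝ), 0 < ρ → ρ ≤ 1 →
      ((f * g + 1).roots.toFinset.card : ℝ) ≤
        min (11 * (f.support.card + g.support.card : ℕ) / ρ)
            (3000 * (f.support.card + g.support.card : ℕ) *
              Real.log (4 * (f.support.card + g.support.card : ℕ) / ρ)) + 2 +
          2 * ({x : ℝ | (derivative (f * g)).eval x = 0 ∧ |(f * g + 1).eval x| ≤
            3 * ρ * (∑ n ∈ f.support, |f.coeff n| * |x| ^ n) *
              (∑ n ∈ g.support, |g.coeff n| * |x| ^ n)}.ncard : ℝ)) :=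
  ⟨fun _ _ _ _ a b A r B q μ ν _ _ ρ c hρ hρ1 hc hr hq hμ hν =>
      model a b A r B q μ ν ρ c hρ hρ1 hc hr hq hμ hν,
    fun f g _ hρ hρ1 => exists_pert f g hρ hρ1,
    fun f g _ hρ hρ1 => numRoots_le_ncard f g hρ hρ1⟩

end Pool.Agent.Results.MP_c11b14_lc.SmoothedCount
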